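import Pool.Agent.helper30.CIPRel

/-!
# Enlarging fixed point sets in compact metric ANRs

Let `X` be an arbitrary compact metric ANR, `A` closed in `X` and `K` a self-map of `X`.  If the
frontier of `A` consists of fixed points of `K`, of a closed set that can be deformed in `X` to its
image under `K` so that no point returns to its initial position, and of a totally disconnected
remainder, then `A ∪ Fix K` is the fixed point set of a self-map of `X`.
-/

set_option autoImplicit false

open Set Topology TopologicalSpace

namespace Pool.Agent.Results.MP_73b818_gt.EnlargeFixSets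

open Pool.Agent.helper30.CIP

theorem result {X : Type} [TopologicalSpace X] (hX : IsCompactANR X) (A : Set X)
    (hA : IsClosed A) (K : X → X) (hK : Continuous K) (C : Set X) (hC : IsClosed C)
    (H : C × unitInterval → X) (hH : Continuous H) (H0 : ∀ x : C, H (x, 0) = x)
    (H1 : ∀ x : C, H (x, 1) = K x) (Hfix : ∀ x : C, K x = x → ∀ t, H (x, t) = x)
    (Hmove : ∀ x : C, K x ≠ x → ∀ t, t ≠ 0 → H (x, t) ≠ x)
    (hpath : ∀ x ∈ frontier A, Joined x (K x))
    (hrest : IsTotallyDisconnected (frontier A \ (C ∪ {x | K x = x}))) :
    IsFixSet X (A ∪ {x | K x = x}) :=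
  enlarge_rel hX A hA K hK C hC H hH H0 H1 Hfix Hmove hpath hrest

end Pool.Agent.Results.MP_73b818_gt.EnlargeFixSets
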