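import Pool.Agent.helper30.CIPQuot

/-!
# Mapping cylinders and mapping cones over compact metric ARs

Problem MP_73b818_gt asks whether every compact metric ANR has the complete invariance property
(every nonempty closed subset is the fixed point set of a self-map).  Let `Z` be a compact metric
AR, `Y` a compact metric ANR, `q : Y → Z` any map and `X` the mapping cylinder of `q`, possibly
with a part `F × {1}` of its top collapsed to a point (`F = ∅`: mapping cylinder, `F = Y`: mapping
cone).  A nonempty closed subset of `X` is a fixed point set as soon as its trace on the base `Z`
is empty or a fixed point set of `Z`; so `X` inherits the property from `Z`.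
-/

set_option autoImplicit false

open Set Topology TopologicalSpace

namespace Pool.Agent.Results.MP_73b818_gt.QuotientCylinders

open Pool.Agent.helper30.CIP

theorem result (X Y Z : Type) [TopologicalSpace X] [MetrizableSpace X] [TopologicalSpace Y]
    [TopologicalSpace Z] (hY : IsCompactANR Y) (hZ : IsCompactAR Z) (q : Y → Z)
    (hq : Continuous q) (F : Set Y) (j : Z → X) (p : Y × unitInterval → X)
    (h : IsQuotCylinder q F j p) (A : Set X) (hA : IsClosed A) (hne : A.Nonempty)
    (hB : j ⁻¹' A = ∅ ∨ IsFixSet Z (j ⁻¹' A)) : IsFixSet X A :=
  fix_quot hY hZ hq h A hA hne hB

end Pool.Agent.Results.MP_73b818_gt.QuotientCylinders
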