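import Pool.Agent.helper30.CIPCore

/-!
# A class of compact metric spaces with the complete invariance property

Problem MP_73b818_gt asks whether every compact metric ANR has the complete invariance property.
`Constructible` is the least class of compact metrizable spaces that contains the compact metric
spaces with a continuous choice of shortest paths and is closed under countable products, one
point unions and mapping cylinders of maps from arbitrary compact metric ANRs to members.  Every
member `X` has, for each of its points `a`, a contraction to `a` all of whose stages after the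
first have `a` as their only fixed point, and so it has the complete invariance property.
-/

set_option autoImplicit false

open Set Topology TopologicalSpace

namespace Pool.Agent.Results.MP_73b818_gt.StrictClass

open Pool.Agent.helper30.CIP

/-- The least class of compact metrizable spaces which contains the compact metric spaces with a
continuous choice of shortest paths and is closed under countable products, one point unions and
mapping cylinders of maps from compact metric ANRs to members. -/
inductive Constructible : ∀ (X : Type), TopologicalSpace X → Prop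
  | geodesic (X : Type) [MetricSpace X] [CompactSpace X] (W : X × X × unitInterval → X)
      (hW : Continuous W) (h0 : ∀ x y, W (x, y, 0) = x) (h1 : ∀ x y, W (x, y, 1) = y)
      (hd : ∀ x y t, dist x (W (x, y, t)) = t * dist x y) : Constructible X inferInstance
  | product (X : ℕ → Type) [∀ n, TopologicalSpace (X n)]
      (h : ∀ n, Constructible (X n) inferInstance) : Constructible (∀ n, X n) inferInstance
  | union (X X₁ X₂ : Type) [TopologicalSpace X] [CompactSpace X] [MetrizableSpace X]
      [TopologicalSpace X₁] [TopologicalSpace X₂] (h₁ : Constructible X₁ inferInstance)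
      (h₂ : Constructible X₂ inferInstance) (i₁ : X₁ → X) (i₂ : X₂ → X) (c₁ : Continuous i₁)
      (c₂ : Continuous i₂) (n₁ : Function.Injective i₁) (n₂ : Function.Injective i₂)
      (cover : ∀ x, (∃ y, i₁ y = x) ∨ ∃ y, i₂ y = x) (p₁ : X₁) (p₂ : X₂)
      (h : ∀ x₁ x₂, i₁ x₁ = i₂ x₂ ↔ x₁ = p₁ ∧ x₂ = p₂) : Constructible X inferInstance
  | cylinder (X Y Z : Type) [TopologicalSpace X] [CompactSpace X] [MetrizableSpace X]
      [TopologicalSpace Y] [TopologicalSpace Z] (hY : IsCompactANR Y)
      (hZ : Constructible Z inferInstance) (q : Y → Z) (hq : Continuous q) (j : Z → X)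
      (p : Y × unitInterval → X) (h : IsCylinder q j p) : Constructible X inferInstance

theorem Constructible.good {X : Type} {tX : TopologicalSpace X} (h : Constructible X tX) :
    CompactSpace X ∧ MetrizableSpace X ∧ ∀ a : X, StrictTo X a := by
  induction h with
  | geodesic X W hW h0 h1 hd =>
    exact ⟨inferInstance, inferInstance, fun a => strictTo_geodesic W hW h0 h1 hd a⟩
  | product X h ih =>
    haveI : ∀ n, CompactSpace (X n) := fun n => (ih n).1
    haveI : ∀ n, MetrizableSpace (X n) := fun n => (ih n).2.1
    exact ⟨inferInstance, inferInstance, fun a => StrictTo.pi a fun n => (ih n).2.2 (a n)⟩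
  | union X X₁ X₂ h₁ h₂ i₁ i₂ c₁ c₂ n₁ n₂ cover p₁ p₂ h ih₁ ih₂ =>
    haveI := ih₁.1
    haveI := ih₂.1
    refine ⟨inferInstance, inferInstance, fun a => ?_⟩
    rcases cover a with ⟨y, rfl⟩ | ⟨y, rfl⟩
    · exact strictTo_wedge i₁ i₂ c₁ c₂ n₁ n₂ cover p₁ p₂ h y (ih₁.2.2 y) (ih₂.2.2 p₂)
    · exact strictTo_wedge i₂ i₁ c₂ c₁ n₂ n₁ (fun x => (cover x).symm) p₂ p₁
        (fun x₁ x₂ => by rw [eq_comm, h, and_comm]) y (ih₂.2.2 y) (ih₁.2.2 p₁)
  | cylinder X Y Z hY hZ q hq j p h ih =>
    haveI := hY.1
    haveI := hY.metrizable
    haveI := ih.1
    haveI := ih.2.1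
    refine ⟨inferInstance, inferInstance, fun a => ?_⟩
    rcases h.cover a with ⟨z, rfl⟩ | ⟨y, s, rfl⟩
    · exact strictTo_base hq h z (ih.2.2 z)
    · by_cases hs : s = 0
      · subst hs
        rw [h.bottom]
        exact strictTo_base hq h _ (ih.2.2 _)
      · exact strictTo_side hq h y s hs (hY.pinch y) (ih.2.2 _)

/-- Every space of the class is compact and metrizable and has the complete invariance
property. -/
theorem result (X : Type) (tX : TopologicalSpace X) (hX : Constructible X tX) :
    CompactSpace X ∧ MetrizableSpace X ∧
      ∀ A : Set X, IsClosed A → A.Nonempty → ∃ f : X → X, Continuous f ∧ {x | f x = x} = A := by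
  obtain ⟨h1, h2, h3⟩ := hX.good
  exact ⟨h1, h2, fun A hA ⟨a, ha⟩ => (h3 a).fix A hA ha⟩

end Pool.Agent.Results.MP_73b818_gt.StrictClass
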