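import Mathlib
import Pool.Agent.helper63.ZFixANR

/-!
# Z-sets in compact metric ANRs are fixed point sets

Problem MP_73b818_gt asks whether every compact metric ANR `X` has the complete invariance
property: is every nonempty closed `A ⊆ X` the fixed point set of a self-map of `X`?

We prove it for every nonempty Z-set `A` that is contractible in `X` (so for every nonempty
Z-set when `X` is contractible, that is, a compact metric AR).  As in the frozen statement of the
problem, compact metric ANRs are given as closed subsets of the Hilbert cube `ℕ → unitInterval`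
that are retracts of open neighbourhoods.
-/

set_option autoImplicit false

open Set Topology Uniformity

namespace Pool.Agent.Results.MP_73b818_gt.ZSets

/-- `X ⊆ Q` is a compact metric ANR: closed and a retract of an open neighbourhood in the
Hilbert cube (exactly the hypothesis of the frozen statement). -/
def IsCompactANR (X : Set (ℕ → unitInterval)) : Prop :=
  IsClosed X ∧ ∃ U : Set (ℕ → unitInterval), IsOpen U ∧ X ⊆ U ∧
    ∃ r : (ℕ → unitInterval) → (ℕ → unitInterval),
      ContinuousOn r U ∧ MapsTo r U X ∧ ∀ x ∈ X, r x = x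

/-- `A` is a Z-set in `X`: `A ⊆ X` is closed and the identity of `X` is uniformly approximable by
maps `X → X \ A`. -/
def IsZSet (X A : Set (ℕ → unitInterval)) : Prop :=
  A ⊆ X ∧ IsClosed A ∧ ∀ V ∈ 𝓤 (ℕ → unitInterval),
    ∃ g : (ℕ → unitInterval) → (ℕ → unitInterval),
      ContinuousOn g X ∧ MapsTo g X (X \ A) ∧ ∀ x ∈ X, (x, g x) ∈ V

/-- `A` is contractible in `X`: the inclusion `A → X` is homotopic in `X` to a constant map. -/
def ContractibleIn (X A : Set (ℕ → unitInterval)) : Prop :=
  ∃ b ∈ X, ∃ G : (ℕ → unitInterval) × unitInterval → (ℕ → unitInterval),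
    ContinuousOn G (A ×ˢ univ) ∧ MapsTo G (A ×ˢ univ) X ∧
      (∀ a ∈ A, G (a, 0) = a) ∧ ∀ a ∈ A, G (a, 1) = b

/-- `A` is the fixed point set of a self-map of `X` (the conclusion of the frozen statement). -/
def IsFixedPointSet (X A : Set (ℕ → unitInterval)) : Prop :=
  ∃ f : (ℕ → unitInterval) → (ℕ → unitInterval),
    ContinuousOn f X ∧ MapsTo f X X ∧ {x | x ∈ X ∧ f x = x} = A

open Pool.Helper63.ZFix in
theorem anr_case (X A : Set (ℕ → unitInterval)) (hX : IsCompactANR X) (hA : IsZSet X A)
    (hne : A.Nonempty) (hcon : ContractibleIn X A) : IsFixedPointSet X A := by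
  classical
  obtain ⟨hXc, U, hU, hXU, r, hr, hrX, hrid⟩ := hX
  obtain ⟨hAX, hAc, hZ⟩ := hA
  obtain ⟨b, hb, G, hG, hGX, G0, G1⟩ := hcon
  have : CompactSpace X := isCompact_iff_compactSpace.1 hXc.isCompact
  let mX : MetricSpace X := TopologicalSpace.metrizableSpaceMetric X
  let e : X → (ℕ → unitInterval) := Subtype.val
  have he : Continuous e := continuous_subtype_val
  let R : (ℕ → unitInterval) → X := fun q => if hq : q ∈ U then ⟨r q, hrX hq⟩ else ⟨b, hb⟩
  have hR : ContinuousOn R U := by
    rw [continuousOn_iff_continuous_domRestrict]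
    have h1 : Continuous (fun q : U => (⟨r q, hrX q.2⟩ : X)) :=
      (continuousOn_iff_continuous_domRestrict.1 hr).subtype_mk _
    convert h1 using 1
    funext q
    show R q = _
    exact dif_pos q.2
  have heU : ∀ y : X, e y ∈ U := fun y => hXU y.2
  have hRe : ∀ y : X, R (e y) = y := fun y => by
    have : R (e y) = ⟨r (e y), hrX (heU y)⟩ := dif_pos (heU y)
    rw [this]
    exact Subtype.ext (hrid y y.2)
  let A' : Set X := e ⁻¹' A
  have hA' : IsClosed A' := hAc.preimage he
  have hne' : A'.Nonempty := by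
    obtain ⟨a, ha⟩ := hne
    exact ⟨⟨a, hAX ha⟩, ha⟩
  have HZ : ∀ δ > 0, ∃ g : X → X, Continuous g ∧ (∀ y, dist (g y) y < δ) ∧ ∀ y, g y ∉ A' := by
    intro δ hδ
    have huc := @CompactSpace.uniformContinuous_of_continuous X X instUniformSpaceSubtype
      mX.toUniformSpace _ id continuous_id
    have hV : {p : X × X | dist p.2 p.1 < δ} ∈ @uniformity X mX.toUniformSpace := by
      have := Metric.dist_mem_uniformity (α := X) hδ
      filter_upwards [this] with p hp
      show dist p.2 p.1 < δ
      rw [dist_comm]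
      exact hp
    have hV2 : {p : X × X | dist p.2 p.1 < δ} ∈ @uniformity X instUniformSpaceSubtype := huc hV
    rw [uniformity_subtype] at hV2
    obtain ⟨V, hV, hVsub⟩ := hV2
    obtain ⟨g, hg, hgX, hgV⟩ := hZ V hV
    refine ⟨fun y => ⟨g y, (hgX y.2).1⟩, ?_, ?_, ?_⟩
    · exact (continuousOn_iff_continuous_domRestrict.1 hg).subtype_mk _
    · intro y
      have : ((y, ⟨g y, (hgX y.2).1⟩) : X × X) ∈ {p : X × X | dist p.2 p.1 < δ} :=
        hVsub (hgV y y.2)
      exact this
    · intro y hy
      exact (hgX y.2).2 hy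
  let G' : X × unitInterval → X := fun p =>
    if hp : p.1 ∈ A' then ⟨G (e p.1, p.2), hGX ⟨hp, mem_univ _⟩⟩ else p.1
  have hG'v : ∀ p : X × unitInterval, p.1 ∈ A' → e (G' p) = G (e p.1, p.2) := fun p hp => by
    have : G' p = ⟨G (e p.1, p.2), hGX ⟨hp, mem_univ _⟩⟩ := dif_pos hp
    rw [this]
  have hG' : ContinuousOn G' (A' ×ˢ univ) := by
    have hind : Topology.IsInducing e := Topology.IsInducing.subtypeVal
    rw [hind.continuousOn_iff]
    have h2 : ContinuousOn (fun p : X × unitInterval => G (e p.1, p.2)) (A' ×ˢ univ) := by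
      refine hG.comp (Continuous.continuousOn ?_) ?_
      · exact (he.comp continuous_fst).prodMk continuous_snd
      · intro p hp
        exact ⟨hp.1, mem_univ _⟩
    exact h2.congr (fun p hp => hG'v p hp.1)
  obtain ⟨f, fc, hf⟩ := main_Y e he U hU heU R hR hRe A' hA' hne' HZ ⟨b, hb⟩ G' hG'
    (fun a ha => Subtype.ext (by
      have := hG'v (a, 0) ha
      show e (G' (a, 0)) = a.1
      rw [this]; exact G0 a.1 ha))
    (fun a ha => Subtype.ext (by
      have := hG'v (a, 1) ha
      show e (G' (a, 1)) = b
      rw [this]; exact G1 a.1 ha))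
  let F : (ℕ → unitInterval) → (ℕ → unitInterval) := fun q =>
    if hq : q ∈ X then (f ⟨q, hq⟩ : ℕ → unitInterval) else q
  have hF : ∀ (q) (hq : q ∈ X), F q = (f ⟨q, hq⟩ : ℕ → unitInterval) := fun q hq => dif_pos hq
  refine ⟨F, ?_, ?_, ?_⟩
  · rw [continuousOn_iff_continuous_domRestrict]
    have h1 : Continuous (fun q : X => (f q : ℕ → unitInterval)) := he.comp fc
    convert h1 using 1
    funext q
    exact hF q.1 q.2
  · intro q hq
    rw [hF q hq]
    exact (f ⟨q, hq⟩).2
  · ext q
    constructor
    · rintro ⟨hq, hfq⟩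
      rw [hF q hq] at hfq
      have : f ⟨q, hq⟩ = ⟨q, hq⟩ := Subtype.ext hfq
      exact (hf ⟨q, hq⟩).1 this
    · intro hq
      refine ⟨hAX hq, ?_⟩
      rw [hF q (hAX hq)]
      have := (hf ⟨q, hAX hq⟩).2 hq
      rw [this]

/-- Every nonempty Z-set `A` of a compact metric ANR `X` that is contractible in `X` is the fixed
point set of a self-map of `X`. -/
theorem result : ∀ X A : Set (ℕ → unitInterval), IsCompactANR X → IsZSet X A → A.Nonempty →
    ContractibleIn X A → IsFixedPointSet X A :=
  anr_case

end Pool.Agent.Results.MP_73b818_gt.ZSets
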